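import Pool.Agent.Work.MP_db9399_lt.Interface

/-! MP_db9399, THEOREM LT, block DRC (helper39). -/

set_option autoImplicit false

namespace Pool.Agent.Work.MP_db9399_lt.helper39

open Finset Classical
open Pool.Agent.Work.MP_db9399_all (nb)
open Pool.Agent.Work.MP_db9399_nc (nn PEC Mts)
open Pool.Agent.Work.MP_db9399_lt

universe u

/-- Hall's theorem for two disjoint sets of the same size and a dense relation, as an
involution. -/
theorem drc_hall {V : Type u} (A B : Finset V) (ok : V → V → Prop) (z : ℕ)
    (hAB : Disjoint A B) (hc : A.card = B.card) (hz : 2 * z ≤ A.card)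
    (hA : ∀ v ∈ A, (B.filter (fun w => ¬ ok v w)).card ≤ z)
    (hB : ∀ w ∈ B, (A.filter (fun v => ¬ ok v w)).card ≤ z) :
    ∃ f : V → V, (∀ v, f (f v) = v) ∧ (∀ v ∈ A, f v ∈ B ∧ ok v (f v)) ∧
      (∀ w ∈ B, f w ∈ A ∧ ok (f w) w) ∧ ∀ v, v ∉ A → v ∉ B → f v = v := by
  have hall : ∀ S : Finset {v // v ∈ A},
      S.card ≤ (S.biUnion (fun v => B.filter (fun w => ok v.val w))).card := by
    intro S
    rcases S.eq_empty_or_nonempty with hS | ⟨v0, hv0⟩
    · subst hS; simp
    by_cases hbig : S.card + z ≤ B.card
    · have h1 : (B.filter (fun w => ok v0.val w)).card ≤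
          (S.biUnion (fun v => B.filter (fun w => ok v.val w))).card :=
        card_le_card (subset_biUnion_of_mem (fun v : {v // v ∈ A} => B.filter (fun w => ok v.val w)) hv0)
      have h2 : (B.filter (fun w => ok v0.val w)).card +
          (B.filter (fun w => ¬ ok v0.val w)).card = B.card :=
        card_filter_add_card_filter_not _
      have h3 := hA v0.val v0.property
      omega
    · have h1 : B ⊆ S.biUnion (fun v => B.filter (fun w => ok v.val w)) := by
        intro w hw
        by_contra hcon
        have h2 : S.map (Function.Embedding.subtype _) ⊆ A.filter (fun v => ¬ ok v w) := by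
          intro v hv
          rw [mem_map] at hv
          obtain ⟨v', hv', rfl⟩ := hv
          rw [mem_filter]
          refine ⟨v'.property, fun h => hcon ?_⟩
          rw [mem_biUnion]
          exact ⟨v', hv', mem_filter.mpr ⟨hw, h⟩⟩
        have h3 := card_le_card h2
        rw [card_map] at h3
        have h4 := hB w hw
        omega
      have h2 : S.card ≤ A.card := by
        have := card_le_univ S
        rwa [Fintype.card_coe] at this
      have h3 := card_le_card h1
      omega
  obtain ⟨g, hg1, hg2⟩ := (all_card_le_biUnion_card_iff_exists_injective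
    (fun v : {v // v ∈ A} => B.filter (fun w => ok v.val w))).mp hall
  have hgB : ∀ x, g x ∈ B := fun x => (mem_filter.mp (hg2 x)).1
  have hgo : ∀ x, ok x.val (g x) := fun x => (mem_filter.mp (hg2 x)).2
  have himg : univ.image g = B := by
    apply eq_of_subset_of_card_le
    · intro w hw
      rw [mem_image] at hw
      obtain ⟨x, -, rfl⟩ := hw
      exact hgB x
    · rw [card_image_of_injective _ hg1, card_univ, Fintype.card_coe, hc]
  have hgs : ∀ w ∈ B, ∃ x, g x = w := by
    intro w hw
    rw [← himg, mem_image] at hw
    obtain ⟨x, -, hx⟩ := hw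
    exact ⟨x, hx⟩
  have hex : ∀ v : V, ∃ w : V, (∀ h : v ∈ A, w = g ⟨v, h⟩) ∧
      (v ∈ B → ∃ x, g x = v ∧ x.val = w) ∧ (v ∉ A → v ∉ B → w = v) := by
    intro v
    by_cases h1 : v ∈ A
    · refine ⟨g ⟨v, h1⟩, fun _ => rfl, fun h => absurd h (disjoint_left.mp hAB h1),
        fun h => absurd h1 h⟩
    · by_cases h2 : v ∈ B
      · obtain ⟨x, hx⟩ := hgs v h2
        exact ⟨x.val, fun h => absurd h h1, fun _ => ⟨x, hx, rfl⟩, fun _ h => absurd h2 h⟩
      · exact ⟨v, fun h => absurd h h1, fun h => absurd h h2, fun _ _ => rfl⟩
  choose f hf1 hf2 hf3 using hex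
  have hfA : ∀ v (h : v ∈ A), f v = g ⟨v, h⟩ := fun v h => hf1 v h
  have hfg : ∀ x : {v // v ∈ A}, f (g x) = x.val := by
    intro x
    obtain ⟨y, hy1, hy2⟩ := hf2 (g x) (hgB x)
    rw [← hy2, hg1 hy1]
  refine ⟨f, ?_, ?_, ?_, hf3⟩
  · intro v
    by_cases h1 : v ∈ A
    · rw [hfA v h1, hfg]
    · by_cases h2 : v ∈ B
      · obtain ⟨y, hy1, hy2⟩ := hf2 v h2
        rw [← hy2, hfA y.val y.property]
        exact hy1
      · rw [hf3 v h1 h2, hf3 v h1 h2]
  · intro v hv
    rw [hfA v hv]
    exact ⟨hgB _, hgo ⟨v, hv⟩⟩
  · intro w hw
    obtain ⟨y, hy1, hy2⟩ := hf2 w hw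
    rw [← hy2]
    refine ⟨y.property, ?_⟩
    rw [← hy1]
    exact hgo y

theorem stmt_DRC : Stmt_DRC.{u} := by
  intro V _ G L sd p z P0 K hBal hz hK hKs hKe hKp
  have key : ∀ E : Finset ℕ, E ⊆ P0 → ∃ M : ℕ → V → V, Mts G E M ∧ (∀ b ∈ E, ∀ v, M b v ≠ v) ∧
      (∀ b ∈ E, ∀ v, K b v ≠ v → M b v = K b v) ∧
      ∀ b ∈ E, ∀ v, K b v = v → sd (M b v) ≠ sd v ∧ ¬ L.Adj v (M b v) := by
    intro E
    induction E using Finset.induction_on with
    | empty =>
      intro _
      refine ⟨fun _ v => v, ⟨?_, ?_, ?_⟩, ?_, ?_, ?_⟩ <;>
      · intro b hb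
        exact absurd hb (notMem_empty _)
    | insert b E hbE ih =>
      intro hsub
      have hbP : b ∈ P0 := hsub (mem_insert_self _ _)
      have hEP : E ⊆ P0 := fun x hx => hsub (mem_insert_of_mem hx)
      obtain ⟨M, hM, hMc, hMK, hMs⟩ := ih hEP
      have hEc : E.card ≤ P0.card := card_le_card hEP
      let A : Finset V := univ.filter (fun v => K b v = v ∧ sd v = true)
      let B : Finset V := univ.filter (fun v => K b v = v ∧ sd v = false)
      have hmA : ∀ v, v ∈ A ↔ K b v = v ∧ sd v = true := fun v => by
        simp only [A, mem_filter, mem_univ, true_and]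
      have hmB : ∀ v, v ∈ B ↔ K b v = v ∧ sd v = false := fun v => by
        simp only [B, mem_filter, mem_univ, true_and]
      have hAc : A.card + (univ.filter (fun v => K b v ≠ v ∧ sd v = true)).card = p := by
        rw [← hBal.t, ← card_filter_add_card_filter_not (s := univ.filter (fun v => sd v = true))
          (fun v => K b v = v), filter_filter, filter_filter]
        congr 1
        · congr 1
          ext v
          simp only [A, mem_filter, mem_univ, true_and]
          tauto
        · congr 1
          ext v
          simp only [mem_filter, mem_univ, true_and]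
          tauto
      have hBc : B.card + (univ.filter (fun v => K b v ≠ v ∧ sd v = false)).card = p := by
        rw [← hBal.f, ← card_filter_add_card_filter_not (s := univ.filter (fun v => sd v = false))
          (fun v => K b v = v), filter_filter, filter_filter]
        congr 1
        · congr 1
          ext v
          simp only [B, mem_filter, mem_univ, true_and]
          tauto
        · congr 1
          ext v
          simp only [mem_filter, mem_univ, true_and]
          tauto
      let ok : V → V → Prop := fun v w => G.Adj v w ∧ ¬ L.Adj v w ∧ ∀ b' ∈ E, M b' v ≠ w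
      have hoks : ∀ v w, ok v w → ok w v := by
        intro v w h
        refine ⟨h.1.symm, fun h2 => h.2.1 h2.symm, fun b' hb' h2 => h.2.2 b' hb' ?_⟩
        rw [← h2, hM.inv b' hb']
      have hcnt : ∀ (v : V) (S : Finset V), (∀ w ∈ S, sd w ≠ sd v) →
          (S.filter (fun w => ¬ ok v w)).card ≤ z := by
        intro v S hS
        have h1 : S.filter (fun w => ¬ ok v w) ⊆
            (univ.filter (fun w => sd w ≠ sd v ∧ ¬ G.Adj v w) ∪ nb L v) ∪
              E.image (fun b' => M b' v) := by
          intro w hw
          rw [mem_filter] at hw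
          by_cases h2 : G.Adj v w
          · by_cases h3 : L.Adj v w
            · apply mem_union_left
              apply mem_union_right
              simpa [nb] using h3
            · apply mem_union_right
              by_contra h4
              apply hw.2
              refine ⟨h2, h3, fun b' hb' h5 => h4 ?_⟩
              rw [mem_image]
              exact ⟨b', hb', h5⟩
          · apply mem_union_left
            apply mem_union_left
            rw [mem_filter]
            exact ⟨mem_univ _, hS w hw.1, h2⟩
        have h2 := card_le_card h1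
        have h3 := card_union_le (univ.filter (fun w => sd w ≠ sd v ∧ ¬ G.Adj v w) ∪ nb L v)
          (E.image (fun b' => M b' v))
        have h4 := card_union_le (univ.filter (fun w => sd w ≠ sd v ∧ ¬ G.Adj v w)) (nb L v)
        have h5 : (E.image (fun b' => M b' v)).card ≤ E.card := card_image_le
        have h6 := hz v
        omega
      have hAB : Disjoint A B := by
        rw [disjoint_left]
        intro v hv1 hv2
        have h1 := ((hmA v).mp hv1).2
        have h2 := ((hmB v).mp hv2).2
        rw [h1] at h2
        exact Bool.noConfusion h2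
      have hc1 := hKe b hbP
      have hc2 := hKp b hbP
      obtain ⟨f, hf1, hf2, hf3, hf4⟩ := drc_hall A B ok z hAB (by omega) (by omega)
        (by
          intro v hv
          have h0 : ∀ w ∈ B, sd w ≠ sd v := by
            intro w hw
            rw [((hmA v).mp hv).2, ((hmB w).mp hw).2]
            decide
          convert hcnt v B h0)
        (by
          intro w hw
          have h0 : ∀ v ∈ A, sd v ≠ sd w := by
            intro v hv
            rw [((hmA v).mp hv).2, ((hmB w).mp hw).2]
            decide
          convert hcnt w A h0 using 2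
          ext v
          simp only [mem_filter, not_iff_not, and_congr_right_iff]
          exact fun _ => ⟨hoks _ _, hoks _ _⟩)
      -- properties of `f` on the uncovered vertices
      have hfk : ∀ v, K b v = v → K b (f v) = f v ∧ sd (f v) ≠ sd v ∧ ok v (f v) := by
        intro v hv
        by_cases hs : sd v = true
        · have h1 := hf2 v ((hmA v).mpr ⟨hv, hs⟩)
          have h2 := (hmB _).mp h1.1
          refine ⟨h2.1, ?_, h1.2⟩
          rw [h2.2, hs]
          decide
        · have hs' : sd v = false := by
            cases h : sd v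
            · rfl
            · exact absurd h hs
          have h1 := hf3 v ((hmB v).mpr ⟨hv, hs'⟩)
          have h2 := (hmA _).mp h1.1
          refine ⟨h2.1, ?_, hoks _ _ h1.2⟩
          rw [h2.2, hs']
          decide
      let m : V → V := fun v => if K b v = v then f v else K b v
      have hm1 : ∀ v, K b v = v → m v = f v := fun v h => if_pos h
      have hm2 : ∀ v, K b v ≠ v → m v = K b v := fun v h => if_neg h
      have hKK : ∀ v, K b v ≠ v → K b (K b v) ≠ K b v := by
        intro v h h2
        rw [hK.inv b hbP] at h2
        exact h h2.symm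
      have hmm : ∀ v, m (m v) = v := by
        intro v
        by_cases h : K b v = v
        · rw [hm1 v h, hm1 _ (hfk v h).1, hf1]
        · rw [hm2 v h, hm2 _ (hKK v h), hK.inv b hbP]
      have hma : ∀ v, G.Adj v (m v) := by
        intro v
        by_cases h : K b v = v
        · rw [hm1 v h]
          exact (hfk v h).2.2.1
        · rw [hm2 v h]
          exact hK.adj b hbP v h
      have hmd : ∀ b' ∈ E, ∀ v, m v ≠ M b' v := by
        intro b' hb' v
        by_cases h : K b v = v
        · rw [hm1 v h]
          exact fun h2 => (hfk v h).2.2.2.2 b' hb' h2.symm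
        · rw [hm2 v h]
          by_cases h2 : K b' v = v
          · intro h3
            have h4 := (hMs b' hb' v h2).1
            rw [← h3, hKs b hbP] at h4
            exact h4 rfl
          · rw [hMK b' hb' v h2]
            apply hK.dis b hbP b' (hEP hb') _ v h
            intro h3
            rw [h3] at hbE
            exact hbE hb'
      let M' : ℕ → V → V := fun b' => if b' = b then m else M b'
      have hM'1 : M' b = m := if_pos rfl
      have hM'2 : ∀ b' ∈ E, M' b' = M b' := by
        intro b' hb'
        apply if_neg
        rintro rfl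
        exact hbE hb'
      refine ⟨M', ⟨?_, ?_, ?_⟩, ?_, ?_, ?_⟩
      · intro b' hb' v
        rcases mem_insert.mp hb' with h | h
        · rw [h, hM'1, hmm]
        · rw [hM'2 b' h, hM.inv b' h]
      · intro b' hb' v hv
        rcases mem_insert.mp hb' with h | h
        · rw [h, hM'1]
          exact hma v
        · rw [hM'2 b' h] at hv ⊢
          exact hM.adj b' h v hv
      · intro b1 hb1 b2 hb2 hne v hv
        rcases mem_insert.mp hb1 with h1 | h1 <;> rcases mem_insert.mp hb2 with h2 | h2
        · exact absurd (h1.trans h2.symm) hne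
        · rw [h1, hM'1, hM'2 b2 h2]
          exact hmd b2 h2 v
        · rw [h2, hM'1, hM'2 b1 h1]
          exact (hmd b1 h1 v).symm
        · rw [hM'2 b1 h1] at hv ⊢
          rw [hM'2 b2 h2]
          exact hM.dis b1 h1 b2 h2 hne v hv
      · intro b' hb' v hv
        rcases mem_insert.mp hb' with h | h
        · rw [h, hM'1] at hv
          have := hma v
          rw [hv] at this
          exact G.loopless.irrefl v this
        · rw [hM'2 b' h] at hv
          exact hMc b' h v hv
      · intro b' hb' v hv
        rcases mem_insert.mp hb' with h | h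
        · rw [h] at hv
          rw [h, hM'1]
          exact hm2 v hv
        · rw [hM'2 b' h]
          exact hMK b' h v hv
      · intro b' hb' v hv
        rcases mem_insert.mp hb' with h | h
        · rw [h] at hv
          rw [h, hM'1, hm1 v hv]
          exact ⟨(hfk v hv).2.1, (hfk v hv).2.2.2.1⟩
        · rw [hM'2 b' h]
          exact hMs b' h v hv
  exact key P0 (Subset.refl _)

end Pool.Agent.Work.MP_db9399_lt.helper39
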