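import Pool.Agent.Work.MP_db9399_lt.Interface

/-! MP_db9399, THEOREM LT, block DRN (helper39). -/

set_option autoImplicit false

namespace Pool.Agent.Work.MP_db9399_lt.helper39

open Finset Classical
open Pool.Agent.Work.MP_db9399_all (nb)
open Pool.Agent.Work.MP_db9399_nc (nn PEC Mts)
open Pool.Agent.Work.MP_db9399_lt

universe u

theorem drn_mod1 {p f a : ℕ} (hf : f < p) (ha : a < p) :
    (f + p - (f + p - a) % p) % p = a := by
  have hp : 0 < p := by omega
  rcases Nat.lt_or_ge (f + p - a) p with h | h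
  · rw [Nat.mod_eq_of_lt h]
    have : f + p - (f + p - a) = a := by omega
    rw [this, Nat.mod_eq_of_lt ha]
  · have h2 : (f + p - a) % p = f - a := by
      rw [show f + p - a = (f - a) + p by omega, Nat.add_mod_right, Nat.mod_eq_of_lt (by omega)]
    rw [h2, show f + p - (f - a) = a + p by omega, Nat.add_mod_right, Nat.mod_eq_of_lt ha]

theorem drn_mod2 {p f g a : ℕ} (hf : f < p) (hg : g < p) (ha : a < p)
    (h : (f + p - a) % p = (g + p - a) % p) : f = g := by
  have h1 : ((f + p - a) % p + a) % p = f := by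
    rw [Nat.mod_add_mod, show f + p - a + a = f + p by omega, Nat.add_mod_right,
      Nat.mod_eq_of_lt hf]
  have h2 : ((g + p - a) % p + a) % p = g := by
    rw [Nat.mod_add_mod, show g + p - a + a = g + p by omega, Nat.add_mod_right,
      Nat.mod_eq_of_lt hg]
  rw [← h1, ← h2, h]

theorem drn_mod3 {p a c : ℕ} (ha : a < p) (hc : c < p) :
    ((a + c) % p + p - a) % p = c := by
  rcases Nat.lt_or_ge (a + c) p with h | h
  · rw [Nat.mod_eq_of_lt h, show a + c + p - a = c + p by omega, Nat.add_mod_right,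
      Nat.mod_eq_of_lt hc]
  · have h2 : (a + c) % p = a + c - p := by
      rw [Nat.mod_eq_sub_mod h, Nat.mod_eq_of_lt (by omega)]
    rw [h2, show a + c - p + p - a = c by omega, Nat.mod_eq_of_lt hc]

theorem stmt_DRN : Stmt_DRN.{u} := by
  intro V _ G p n sd tw l E hT hn hE
  -- numbering of the colours
  obtain ⟨φ, hφlt, hφinj, hφsur⟩ : ∃ φ : ℕ → ℕ, (∀ b ∈ E, φ b < p) ∧
      (∀ b ∈ E, ∀ b' ∈ E, φ b = φ b' → b = b') ∧ ∀ i < p, ∃ b ∈ E, φ b = i := by
    let e := E.equivFinOfCardEq hE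
    refine ⟨fun b => if h : b ∈ E then (e ⟨b, h⟩).val else 0, ?_, ?_, ?_⟩
    · intro b hb
      simp only [hb, dif_pos]
      exact (e ⟨b, hb⟩).isLt
    · intro b hb b' hb' h
      simp only [hb, hb', dif_pos] at h
      have := e.injective (Fin.ext h)
      exact congrArg Subtype.val this
    · intro i hi
      refine ⟨(e.symm ⟨i, hi⟩).val, (e.symm ⟨i, hi⟩).property, ?_⟩
      simp
  -- the partner maps
  have hm0 : ∀ (b : ℕ) (v : V), ∃ w : V, b ∈ E → sd w = sd v ∧ l w = (φ b + p - l v) % p := by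
    intro b v
    by_cases hb : b ∈ E
    · have hp : 0 < p := lt_of_le_of_lt (Nat.zero_le _) (hT.lt v)
      obtain ⟨w, h1, h2⟩ := hT.sur (sd v) ((φ b + p - l v) % p) (Nat.mod_lt _ hp)
      exact ⟨w, fun _ => ⟨h1, h2⟩⟩
    · exact ⟨v, fun h => absurd h hb⟩
  choose m hm using hm0
  have hms : ∀ b ∈ E, ∀ v, sd (m b v) = sd v := fun b hb v => (hm b v hb).1
  have hml : ∀ b ∈ E, ∀ v, l (m b v) = (φ b + p - l v) % p := fun b hb v => (hm b v hb).2
  have hmm : ∀ b ∈ E, ∀ v, m b (m b v) = v := by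
    intro b hb v
    apply hT.inj
    · rw [hms b hb, hms b hb]
    · rw [hml b hb, hml b hb]
      exact drn_mod1 (hφlt b hb) (hT.lt v)
  have hmt : ∀ b ∈ E, ∀ v, m b (tw v) = tw (m b v) := by
    intro b hb v
    apply hT.inj
    · rw [hms b hb, hT.ts, hT.ts, hms b hb]
    · rw [hml b hb, hT.tl, hT.tl, hml b hb]
  have hmi : ∀ b ∈ E, ∀ b' ∈ E, ∀ v, m b v = m b' v → b = b' := by
    intro b hb b' hb' v h
    apply hφinj b hb b' hb'
    apply drn_mod2 (hφlt b hb) (hφlt b' hb') (hT.lt v)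
    rw [← hml b hb, ← hml b' hb', h]
  let Cd : ℕ → V → Prop := fun b v => G.Adj v (m b v) ∧ G.Adj (tw v) (tw (m b v))
  let N : ℕ → V → V := fun b v => if Cd b v then m b v else v
  have hN1 : ∀ b v, Cd b v → N b v = m b v := fun b v h => if_pos h
  have hN2 : ∀ b v, ¬ Cd b v → N b v = v := fun b v h => if_neg h
  have hCm : ∀ b ∈ E, ∀ v, Cd b v → Cd b (m b v) := by
    intro b hb v h
    refine ⟨?_, ?_⟩
    · rw [hmm b hb]; exact h.1.symm
    · rw [hmm b hb]; exact h.2.symm
  have hCt : ∀ b ∈ E, ∀ v, Cd b v → Cd b (tw v) := by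
    intro b hb v h
    refine ⟨?_, ?_⟩
    · rw [hmt b hb]; exact h.2
    · rw [hmt b hb, hT.tt, hT.tt]; exact h.1
  have hNn : ∀ b v, N b v ≠ v → Cd b v := by
    intro b v h
    by_contra h2
    exact h (hN2 b v h2)
  have hNnn : ∀ b v, Cd b v → N b v ≠ v := by
    intro b v h h2
    rw [hN1 b v h] at h2
    have := h.1
    rw [h2] at this
    exact G.loopless.irrefl v this
  refine ⟨N, ⟨?_, ?_, ?_⟩, ?_, ?_, ?_⟩
  · intro b hb v
    by_cases h : Cd b v
    · rw [hN1 b v h, hN1 b _ (hCm b hb v h), hmm b hb]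
    · rw [hN2 b v h, hN2 b v h]
  · intro b hb v h
    have h2 := hNn b v h
    rw [hN1 b v h2]
    exact h2.1
  · intro b hb b' hb' hbb v h h2
    have h3 := hNn b v h
    have h4 : Cd b' v := hNn b' v (h2 ▸ h)
    rw [hN1 b v h3, hN1 b' v h4] at h2
    exact hbb (hmi b hb b' hb' v h2)
  · intro b hb v
    by_cases h : Cd b v
    · refine ⟨?_, ?_⟩
      · rw [hN1 b v h, hms b hb]
      · rw [hN1 b v h, hN1 b _ (hCt b hb v h), hmt b hb]
    · have h2 : ¬ Cd b (tw v) := by
        intro h3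
        have := hCt b hb _ h3
        rw [hT.tt] at this
        exact h this
      refine ⟨?_, ?_⟩
      · rw [hN2 b v h]
      · rw [hN2 b v h, hN2 b _ h2]
  · intro v
    have hsub : E.filter (fun b => N b v = v) ⊆ E.filter (fun b => m b v = v) ∪
        (E.filter (fun b => m b v ≠ v ∧ ¬ G.Adj v (m b v)) ∪
          E.filter (fun b => m b v ≠ v ∧ ¬ G.Adj (tw v) (tw (m b v)))) := by
      intro b hb
      rw [mem_filter] at hb
      have h1 : ¬ Cd b v := fun h => hNnn b v h hb.2
      by_cases h2 : m b v = v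
      · exact mem_union_left _ (mem_filter.mpr ⟨hb.1, h2⟩)
      · apply mem_union_right
        by_cases h3 : G.Adj v (m b v)
        · apply mem_union_right
          exact mem_filter.mpr ⟨hb.1, h2, fun h4 => h1 ⟨h3, h4⟩⟩
        · apply mem_union_left
          exact mem_filter.mpr ⟨hb.1, h2, h3⟩
    have c1 : (E.filter (fun b => m b v = v)).card ≤ 1 := by
      rw [card_le_one]
      intro b hb b' hb'
      rw [mem_filter] at hb hb'
      exact hmi b hb.1 b' hb'.1 v (hb.2.trans hb'.2.symm)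
    have c2 : (E.filter (fun b => m b v ≠ v ∧ ¬ G.Adj v (m b v))).card ≤ n := by
      refine le_trans (card_le_card_of_injOn (fun b => m b v) ?_ ?_) (hn v)
      · intro b hb
        have hb' := mem_filter.mp (mem_coe.mp hb)
        exact mem_coe.mpr (mem_filter.mpr ⟨mem_univ _, hb'.2.1, hb'.2.2⟩)
      · intro b hb b' hb' h
        have hb1 := mem_filter.mp (mem_coe.mp hb)
        have hb2 := mem_filter.mp (mem_coe.mp hb')
        exact hmi b hb1.1 b' hb2.1 v h
    have htinj : ∀ v w, tw v = tw w → v = w := by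
      intro v w h
      rw [← hT.tt v, h, hT.tt]
    have c3 : (E.filter (fun b => m b v ≠ v ∧ ¬ G.Adj (tw v) (tw (m b v)))).card ≤ n := by
      refine le_trans (card_le_card_of_injOn (fun b => tw (m b v)) ?_ ?_) (hn (tw v))
      · intro b hb
        have hb' := mem_filter.mp (mem_coe.mp hb)
        exact mem_coe.mpr (mem_filter.mpr ⟨mem_univ _, fun h => hb'.2.1 (htinj _ _ h), hb'.2.2⟩)
      · intro b hb b' hb' h
        have hb1 := mem_filter.mp (mem_coe.mp hb)
        have hb2 := mem_filter.mp (mem_coe.mp hb')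
        exact hmi b hb1.1 b' hb2.1 v (htinj _ _ h)
    calc _ ≤ _ := card_le_card hsub
      _ ≤ _ := card_union_le _ _
      _ ≤ _ := Nat.add_le_add_left (card_union_le _ _) _
      _ ≤ 2 * n + 1 := by omega
  · intro v w hvw hs ht
    have hp : 0 < p := lt_of_le_of_lt (Nat.zero_le _) (hT.lt v)
    obtain ⟨b, hb, hbφ⟩ := hφsur ((l v + l w) % p) (Nat.mod_lt _ hp)
    have h1 : m b v = w := by
      apply hT.inj
      · rw [hms b hb, hs]
      · rw [hml b hb, hbφ]
        exact drn_mod3 (hT.lt v) (hT.lt w)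
    refine ⟨b, hb, ?_⟩
    have h2 : Cd b v := by
      refine ⟨?_, ?_⟩
      · rw [h1]; exact hvw
      · rw [h1]; exact ht
    rw [hN1 b v h2, h1]

end Pool.Agent.Work.MP_db9399_lt.helper39
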